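import Pool.Agent.Y142.SA.Fin
import Pool.Agent.Y514.SA.Span
import Pool.Agent.Y918.SA.Rankn
import Pool.Agent.Y672.SA.RED
import Pool.Agent.Y405.ZO.Frob
import Pool.Agent.Y484.ZI.IntRes
import Pool.Agent.Y726.ZI.Cheb
import Pool.Agent.Y681.ZI.Dens
import Pool.Agent.Y537.ZI.Multi
import Pool.Agent.Y614.ZD.Badd
import Pool.Agent.Y100.ZD.Sub
import Pool.Agent.Y255.SS.LF
import Pool.Agent.Y297.SS.CF
import Pool.Agent.Y708.SS.Loc
import Pool.Agent.Y936.SS.Logr
import Pool.Agent.Y518.SS.Krs
import Pool.Agent.Y737.SS.Chara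
import Pool.Agent.Y932.SI.Subf
import Pool.Agent.Y421.SI.EF
import Pool.Agent.Y641.SI.Trd
import Pool.Agent.Y949.SI.Ende

/-!
# Irreducibility of attached Galois representations at 100 percent of the primes `ℓ`

Let `π` be an algebraic cuspidal automorphic representation of `GL_n` over a number field `K` (for example
`K = ℚ`), unramified outside of a finite set `S`, with Hecke eigenvalues in a number field `E`, Galois over
`ℚ`: for `v ∉ S` the Satake polynomial (the characteristic polynomial of the Satake class in Clozel's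
normalisation) has coefficients in `E`; let `t_v` be the trace of the class and `P_v` the product of the
conjugates over `ℚ` of the Satake polynomial, a polynomial of degree `N = n [E : ℚ]` over `ℚ`. Suppose
that `π` is realised by an `E`-rational compatible system in the sense of Serre, that is, for every prime
`ℓ` by an `E ⊗ ℚ_ℓ`-module `V_ℓ` which is free of rank `n` with a continuous action of the Galois group such
that the geometric Frobenius element at `v ∤ ℓ` has the trace `t_v` over `E ⊗ ℚ_ℓ` and the characteristic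
polynomial `P_v` over `ℚ_ℓ`. No self-duality, no regularity of the infinitesimal character, no purity and no
condition at the places in `S` or above `ℓ` is assumed, and `V_ℓ` need not be semisimple.

**Theorem.** Let `u_0, ..., u_m` be places such that the roots of `P_{u_i}` are simple
and no quotient of two different roots is a root of unity, and let `F` be the intersection of the splitting
fields of these polynomials. Suppose that for every automorphism `g` of the algebraic closure of `ℚ` (only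
the restriction of `g` to `F` matters; let `f` be the order of `g` on `E`)
* for every `d < N`, `d > 0`, which is not divisible by `n f`, there are a place `v` as above
and an automorphism `w` which agrees with `g` on `F` such that no set of `d` roots of `P_v` is stable
under `w`;
* there are a place `v` as above and an automorphism `w` which agrees with `g` on `F` such that `w ^ f`
has a fixed point in every nonempty set of roots of `P_v` which is stable under `w` and whose
number of elements is divisible by `n f`.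
Then for all prime numbers `ℓ` outside of a set of natural density zero, EVERY continuous representation of
the Galois group of `K` on `ℚ̄_ℓ ^ n` which is attached to `π` through any embedding of `E` (only the
traces of the Frobenius elements are compared, and it is not assumed to be semisimple) is irreducible,
and its restriction to every open subgroup is irreducible.

These are conditions on finitely many Satake polynomials. For `E = ℚ` and `F = ℚ` the conditions are: for
every `d` with `0 < d < n` there are a place `v` and an automorphism without stable sets of `d` roots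
of `P_v`. One expects that they can be satisfied if `π` is not induced and not a symmetric power or another
functorial lift with multiplicities in the weights. Known results on irreducibility for all or for many `ℓ`
(Ribet, Blasius-Rogawski, Patrikis-Taylor, Barnet-Lamb-Gee-Geraghty-Taylor, Calegari-Gee, Hui) use potential
automorphy or `p`-adic Hodge theory for self-dual regular `π`, or small `n`.

Idea of the proof. By the theorem on endomorphisms of compatible systems (`EndomorphismsDensityOne`) for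
100 percent of the `ℓ` the commutant of every open subgroup `U` on `V_ℓ` is `E ⊗ ℚ_ℓ` and `V_ℓ` is semisimple.
By the density theorem the image of `U` spans the commutant of `E`, and the trace pairing of the component
of an embedding `ι` of `E` has rank `n ^ 2` on it. By Chebotarev's theorem the trace of an attached
representation `r` is the trace on this component, and the trace pairing of a representation of dimension
`n` which has a stable subspace has rank less than `n ^ 2`.
-/

set_option autoImplicit false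

namespace Pool.Agent.Results.MP_fa5bba_nt.IrreducibleDensityOne

open Matrix Polynomial Filter Topology NumberField IsDedekindDomain

/-- the absolute Galois group of `K`, with its profinite (Krull) topology -/
abbrev AbsoluteGaloisGroup (K : Type) [Field K] : Type := Gal(AlgebraicClosure K/K)

/-- `σ` is an (arithmetic) Frobenius element at the prime `v` of the number field `K`: for some prime
`Q` of the algebraic closure above `v` it acts on the residue field as `x ↦ x ^ N(v)` -/
def IsFrobenius {K : Type} [Field K] [NumberField K] (v : HeightOneSpectrum (𝓞 K))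
    (σ : AbsoluteGaloisGroup K) : Prop :=
  ∃ Q : Ideal (𝓞 (AlgebraicClosure K)), Q.IsMaximal ∧
    Q.comap (algebraMap (𝓞 K) (𝓞 (AlgebraicClosure K))) = v.asIdeal ∧
    ∀ x : 𝓞 (AlgebraicClosure K), σ • x - x ^ Ideal.absNorm v.asIdeal ∈ Q

/-- `ρ` is a continuous representation on `ℚ_ℓ ^ N`, the coefficients `E` act through `ε`, commute with
`ρ` and have the traces of a free `E ⊗ ℚ_ℓ`-module of rank `n`; for all `v ∉ S` which are prime to `ℓ` and the
geometric Frobenius elements `σ⁻¹` (`σ` arithmetic) at `v` the characteristic polynomial of `ρ σ⁻¹` is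
`P v`, and the trace of `ρ σ⁻¹` over `E ⊗ ℚ_ℓ` is `t v` (the trace of `ρ σ⁻¹ a` is `Tr (a t_v)`, `a ∈ E`) -/
def IsRealization (K : Type) [Field K] [NumberField K] (n N ℓ : ℕ) [Fact ℓ.Prime]
    (E : IntermediateField ℚ (AlgebraicClosure ℚ)) (S : Set (HeightOneSpectrum (𝓞 K)))
    (P : HeightOneSpectrum (𝓞 K) → ℚ[X]) (t : HeightOneSpectrum (𝓞 K) → E)
    (ρ : AbsoluteGaloisGroup K →* Matrix (Fin N) (Fin N) ℚ_[ℓ])
    (ε : E →+* Matrix (Fin N) (Fin N) ℚ_[ℓ]) : Prop :=
  Continuous ρ ∧ (∀ a σ, ε a * ρ σ = ρ σ * ε a) ∧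
    (∀ a, (ε a).trace = (n : ℚ_[ℓ]) * ((Algebra.trace ℚ E a : ℚ) : ℚ_[ℓ])) ∧
    ∀ v ∉ S, (ℓ : 𝓞 K) ∉ v.asIdeal → ∀ σ : AbsoluteGaloisGroup K, IsFrobenius v σ →
      (ρ σ⁻¹).charpoly = (P v).map (algebraMap ℚ ℚ_[ℓ]) ∧
        ∀ a : E, (ε a * ρ σ⁻¹).trace = ((Algebra.trace ℚ E (a * t v) : ℚ) : ℚ_[ℓ])

/-- `r` is a continuous representation on `ℚ̄_ℓ ^ n`, and for all `v ∉ S` which are prime to `ℓ` the trace of
the geometric Frobenius elements at `v` is `ι (t v)` -/
def IsAttached {K : Type} [Field K] [NumberField K] {n ℓ : ℕ} [Fact ℓ.Prime]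
    {E : IntermediateField ℚ (AlgebraicClosure ℚ)} (S : Set (HeightOneSpectrum (𝓞 K)))
    (t : HeightOneSpectrum (𝓞 K) → E) (ι : E →+* PadicAlgCl ℓ)
    (r : AbsoluteGaloisGroup K →* GL (Fin n) (PadicAlgCl ℓ)) : Prop :=
  Continuous r ∧ ∀ v ∉ S, (ℓ : 𝓞 K) ∉ v.asIdeal → ∀ σ : AbsoluteGaloisGroup K, IsFrobenius v σ →
    (r σ⁻¹ : Matrix (Fin n) (Fin n) (PadicAlgCl ℓ)).trace = ι (t v)

/-- the restriction of `r` to every open subgroup is irreducible -/
def IsStronglyIrreducible {K : Type} [Field K] {n ℓ : ℕ} [Fact ℓ.Prime]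
    (r : AbsoluteGaloisGroup K →* GL (Fin n) (PadicAlgCl ℓ)) : Prop :=
  ∀ U : Subgroup (AbsoluteGaloisGroup K), IsOpen (U : Set (AbsoluteGaloisGroup K)) →
    ∀ W : Submodule (PadicAlgCl ℓ) (Fin n → PadicAlgCl ℓ),
      (∀ σ ∈ U, ∀ w ∈ W, (r σ : Matrix (Fin n) (Fin n) (PadicAlgCl ℓ)) *ᵥ w ∈ W) → W = ⊥ ∨ W = ⊤

/-- the roots of `P v` are simple, and different roots have different `n`-th powers for all `n > 0` -/
def IsRegularPlace {K : Type} [Field K] [NumberField K]
    (S : Set (HeightOneSpectrum (𝓞 K))) (P : HeightOneSpectrum (𝓞 K) → ℚ[X])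
    (v : HeightOneSpectrum (𝓞 K)) : Prop :=
  v ∉ S ∧ (P v).Separable ∧ ∀ n : ℕ, 0 < n → ∀ x y : ℂ,
    aeval x (P v) = 0 → aeval y (P v) = 0 → x ^ n = y ^ n → x = y

/-- the splitting field of `Q` in the algebraic closure of `ℚ` -/
noncomputable def splittingField (Q : ℚ[X]) : Set (AlgebraicClosure ℚ) :=
  (IntermediateField.adjoin ℚ {x : AlgebraicClosure ℚ | aeval x Q = 0} :
    IntermediateField ℚ (AlgebraicClosure ℚ))

/-- the order of the restriction of `g` to the (finite, normal) field `E` -/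
noncomputable def orderOn (E : IntermediateField ℚ (AlgebraicClosure ℚ))
    (g : AbsoluteGaloisGroup ℚ) : ℕ :=
  sInf {k : ℕ | 0 < k ∧ ∀ a ∈ E, (g ^ k) a = a}

/-- `T` is a set of roots of `Q` which is stable under `w` -/
def IsStableSet (w : AbsoluteGaloisGroup ℚ) (Q : ℚ[X]) (T : Set (AlgebraicClosure ℚ)) : Prop :=
  (∀ x ∈ T, aeval x Q = 0) ∧ ∀ x ∈ T, w x ∈ T

/-- the set `A` of prime numbers has natural density zero -/
def HasDensityZero (A : Set ℕ) : Prop :=
  Tendsto (fun n : ℕ => (Nat.card {ℓ : ℕ // ℓ ≤ n ∧ ℓ ∈ A} : ℝ) / (Nat.primeCounting n : ℝ))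
    atTop (𝓝 0)

/-- **Irreducibility of the attached representations at 100 percent of the primes `ℓ`.** -/
theorem result (K : Type) [Field K] [NumberField K] (n : ℕ) (hn : 0 < n)
    (E : IntermediateField ℚ (AlgebraicClosure ℚ)) [FiniteDimensional ℚ E] [Normal ℚ E]
    (N : ℕ) (hN : N = n * Module.finrank ℚ E)
    (S : Set (HeightOneSpectrum (𝓞 K))) (hS : S.Finite)
    (P : HeightOneSpectrum (𝓞 K) → ℚ[X]) (t : HeightOneSpectrum (𝓞 K) → E)
    (ρ : ∀ (ℓ : ℕ) [Fact ℓ.Prime], AbsoluteGaloisGroup K →* Matrix (Fin N) (Fin N) ℚ_[ℓ])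
    (ε : ∀ (ℓ : ℕ) [Fact ℓ.Prime], E →+* Matrix (Fin N) (Fin N) ℚ_[ℓ])
    (hρ : ∀ (ℓ : ℕ) [Fact ℓ.Prime], IsRealization K n N ℓ E S P t (ρ ℓ) (ε ℓ))
    (m : ℕ) (u : Fin (m + 1) → HeightOneSpectrum (𝓞 K)) (hu : ∀ i, IsRegularPlace S P (u i))
    (h1 : ∀ (g : AbsoluteGaloisGroup ℚ) (d : ℕ), 0 < d → d < N → ¬ n * orderOn E g ∣ d →
      ∃ (v : HeightOneSpectrum (𝓞 K)) (w : AbsoluteGaloisGroup ℚ), IsRegularPlace S P v ∧
        (∀ x, (∀ i, x ∈ splittingField (P (u i))) → w x = g x) ∧
        ∀ T, IsStableSet w (P v) T → T.ncard ≠ d)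
    (h2 : ∀ g : AbsoluteGaloisGroup ℚ,
      ∃ (v : HeightOneSpectrum (𝓞 K)) (w : AbsoluteGaloisGroup ℚ), IsRegularPlace S P v ∧
        (∀ x, (∀ i, x ∈ splittingField (P (u i))) → w x = g x) ∧
        ∀ T, IsStableSet w (P v) T → T.Nonempty → n * orderOn E w ∣ T.ncard →
          ∃ x ∈ T, (w ^ orderOn E w) x = x) :
    HasDensityZero {ℓ | ∃ (_ : Fact ℓ.Prime) (ι : E →+* PadicAlgCl ℓ)
      (r : AbsoluteGaloisGroup K →* GL (Fin n) (PadicAlgCl ℓ)),
      IsAttached S t ι r ∧ ¬ IsStronglyIrreducible r} := by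
  -- the tasks
  have hFROB : Y142.ZO.S_FROB := Y405.ZO.t
  have hINT : Y142.ZI.S_INT := Y484.ZI.t1
  have hCHEB : Y142.ZI.S_CHEB := Y726.ZI.t1
  have hDENS2 : Y142.ZI.S_DENS2 := Y681.ZI.t hCHEB
  have hMULTI : Y142.ZI.S_MULTI := Y537.ZI.t
  have hLF : Y142.SS.S_LF := Y255.SS.t
  have hCF : Y142.SS.S_CF := Y297.SS.t hLF
  have hLOC : Y142.SS.S_LOC := Y708.SS.Loc.t hCF
  have hLOGR : Y142.SS.S_LOGR := Y936.SS.t
  have hKRS : Y142.SS.S_KRS := Y518.SS.t
  have hCHARA : Y142.SS.S_CHARA := Y737.SS.Chara.t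
  have hBADD : Y142.ZD.S_BADD := Y614.ZD.t
  have hSUB : Y142.ZD.S_SUB := Y100.ZD.t
  have hSUBF : Y142.SI.S_SUBF := Y932.SI.Subf.t hLF hCF
  have hEF : Y142.SI.S_EF := Y421.SI.EF.t hLOC
  have hTRD : Y142.SI.S_TRD := Y641.SI.t
  have hENDE : Y142.SI.S_ENDE := Y949.SI.t
  have hNpos : 0 < N := by
    rw [hN]
    exact Nat.mul_pos hn Module.finrank_pos
  have hsys' : ∀ (ℓ : ℕ) [Fact ℓ.Prime], Y142.SS.Sys K N ℓ (ρ ℓ) S P := fun ℓ _ =>
    ⟨(hρ ℓ).1, fun v hv hvℓ σ hσ => ((hρ ℓ).2.2.2 v hv hvℓ σ hσ).1⟩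
  have hnice : ∀ v, IsRegularPlace S P v → Y142.ZS.NiceP S P v := fun v hv =>
    Y142.SS.nice_of_complexA ρ hsys' hv.1 hv.2.1 hv.2.2
  have hLf : ∀ (i : Fin (m + 1)) (x : AlgebraicClosure ℚ),
      x ∈ Y142.ZI.Lf (P (u i)) → x ∈ splittingField (P (u i)) := by
    intro i x hx
    have h2 : (P (u i)).rootSet (AlgebraicClosure ℚ) =
        {x : AlgebraicClosure ℚ | aeval x (P (u i)) = 0} := by
      ext y
      exact mem_rootSet_of_ne (hu i).2.1.ne_zero
    unfold Y142.ZI.Lf at hx
    rw [h2] at hx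
    exact hx
  have hA : ∀ g w : AbsoluteGaloisGroup ℚ,
      (∀ x, (∀ i, x ∈ splittingField (P (u i))) → w x = g x) →
      w⁻¹ * g ∈ Subgroup.closure (⋃ i, Y142.SS.Fix (P (u i))) := by
    intro g w hw
    refine Y142.SS.field_mem _ (fun i => (hu i).2.1.ne_zero) fun x hx => ?_
    rw [AlgEquiv.mul_apply, ← hw x fun i => hLf i x (hx i), ← AlgEquiv.mul_apply, inv_mul_cancel,
      AlgEquiv.one_apply]
  refine Y142.ZI.DensityZero.mono (Y142.SI.densitySI (Γ := AbsoluteGaloisGroup K) hLOC hLOGR hKRS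
    hCHARA hMULTI hFROB hINT hDENS2 hBADD hSUB hSUBF hEF hTRD hENDE hS (MonoidHom.id _)
    continuous_id ρ (fun ℓ _ => ⟨(hρ ℓ).1, fun v hv hvℓ σ hσ => ((hρ ℓ).2.2.2 v hv hvℓ σ hσ).1⟩) E
    inferInstance inferInstance n hn hN ε (fun ℓ _ => (hρ ℓ).2.1) (fun ℓ _ => (hρ ℓ).2.2.1) u
    (fun i => hnice _ (hu i)) ?_ ?_) ?_
  · intro g d hd hdN hnd
    obtain ⟨v, w, hv, hw, hT⟩ := h1 g d hd hdN hnd
    exact ⟨v, hnice v hv, w, fun T hT1 hT2 => hT T ⟨hT1, hT2⟩, hA g w hw⟩
  · intro g
    obtain ⟨v, w, hv, hw, hT⟩ := h2 g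
    exact ⟨v, hnice v hv, w, fun T hT1 hne hT2 hd => hT T ⟨hT1, hT2⟩ hne hd, hA g w hw⟩
  · rintro ℓ ⟨hp, ι, r, hr, hno⟩
    refine ⟨hp, fun hgood => hno ?_⟩
    intro U hU W hW
    refine Y142.SA.local_SA Y514.SA.span Y918.SA.t Y672.SA.red hn (ρ ℓ) (hρ ℓ).1 E
      inferInstance (ε ℓ) (hρ ℓ).2.2.1 hgood S hS t
      (fun v hv hvℓ σ hσ => ((hρ ℓ).2.2.2 v hv hvℓ σ hσ).2) ι
      ((Units.coeHom (Matrix (Fin n) (Fin n) (PadicAlgCl ℓ))).comp r)
      (Units.continuous_val.comp hr.1) (fun v hv hvℓ σ hσ => hr.2 v hv hvℓ σ hσ) U hU W hW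

end Pool.Agent.Results.MP_fa5bba_nt.IrreducibleDensityOne
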