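import Pool.Agent.Y801.LG.Irr2

/-!
# Irreducibility when a positive proportion of the Satake parameters has finite order

Let `π` be a cuspidal automorphic representation of `GL_n` over a number field `F`, unramified at the
finite places `v ∉ S`, and let `α v i`, `1 ≤ i ≤ n`, be the eigenvalues of the class of
`π_v ⊗ |det|^((1-n)/2)`. Suppose that one of the following is true.

* For a set of places `v` of positive upper density, the `α v i` are roots of unity, and no nonempty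
  subfamily of them has sum zero.
* For a set of places `v` of upper density greater than `1 - 1 / n ^ 2`, the trace `∑ i, α v i` lies in
  one finite set.

Then for every `ℓ` and every isomorphism, every continuous `ℓ`-adic representation attached to `π` (not
assumed to be semisimple) is irreducible, with finite image. Cuspidality is used only in the following
form: the mean of `|∑ i, α v i| ^ 2` over the places of norm at most `X` is less than some `c < 2` for
arbitrarily large `X` (by Rankin-Selberg theory its upper limit is at most one if the central character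
of `π_v ⊗ |det|^((1-n)/2)` is unitary, which is the case here; in general one has to apply a Tate twist).
-/

set_option autoImplicit false

namespace Pool.Agent.Results.MP_fa5bba_nt.PositiveDensity

open NumberField IsDedekindDomain Filter

section defs

variable {F : Type} [Field F] [NumberField F]

/-- `σ` is an arithmetic Frobenius element at the place `v` of `F`: there is a maximal ideal `Q` above `v`
of the ring of all algebraic integers with `σ x ≡ x ^ N(v)` modulo `Q` for all `x` -/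
def Frobenius (v : HeightOneSpectrum (𝓞 F)) (σ : Gal(AlgebraicClosure F/F)) : Prop :=
  ∃ Q : Ideal (𝓞 (AlgebraicClosure F)), Q.IsMaximal ∧
    Q.comap (algebraMap (𝓞 F) (𝓞 (AlgebraicClosure F))) = v.asIdeal ∧
    ∀ x : 𝓞 (AlgebraicClosure F), σ • x - x ^ Ideal.absNorm v.asIdeal ∈ Q

/-- `σ` is in an inertia group at the place `v` of `F` -/
def Inertia (v : HeightOneSpectrum (𝓞 F)) (σ : Gal(AlgebraicClosure F/F)) : Prop :=
  ∃ Q : Ideal (𝓞 (AlgebraicClosure F)), Q.IsMaximal ∧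
    Q.comap (algebraMap (𝓞 F) (𝓞 (AlgebraicClosure F))) = v.asIdeal ∧
    ∀ x : 𝓞 (AlgebraicClosure F), σ • x - x ∈ Q

/-- the set `P` of places has upper natural density greater than `c`: for some `d > c` there are
arbitrarily large `X` such that at least `d * #{v | N(v) ≤ X}` places of norm at most `X` lie in `P` -/
def UpperDensityGt (P : Set (HeightOneSpectrum (𝓞 F))) (c : ℝ) : Prop :=
  ∃ d : ℝ, c < d ∧ ∃ᶠ X : ℕ in atTop,
    d * ({v : HeightOneSpectrum (𝓞 F) | Ideal.absNorm v.asIdeal ≤ X}.ncard : ℝ) ≤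
      ({v : HeightOneSpectrum (𝓞 F) | Ideal.absNorm v.asIdeal ≤ X ∧ v ∈ P}.ncard : ℝ)

/-- the numbers `a i` are roots of unity, and no nonempty subfamily has sum zero -/
def RootsOfUnity {n : ℕ} (a : Fin n → ℂ) : Prop :=
  (∀ i, ∃ m : ℕ, 0 < m ∧ a i ^ m = 1) ∧ ∀ J : Finset (Fin n), J.Nonempty → ∑ i ∈ J, a i ≠ 0

/-- `ρ` is continuous, and for `v ∉ S`, `v ∤ ℓ`, it is unramified at `v` and each geometric Frobenius
element at `v` is mapped to the semisimple class with the eigenvalues `ι⁻¹(α v i)` -/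
def Attached (S : Set (HeightOneSpectrum (𝓞 F))) {n : ℕ} (α : HeightOneSpectrum (𝓞 F) → Fin n → ℂ)
    {ℓ : ℕ} [Fact ℓ.Prime] (ι : PadicAlgCl ℓ ≃+* ℂ)
    (ρ : Gal(AlgebraicClosure F/F) →* GL (Fin n) (PadicAlgCl ℓ)) : Prop :=
  Continuous ρ ∧ ∀ v ∉ S, (ℓ : 𝓞 F) ∉ v.asIdeal → (∀ τ, Inertia v τ → ρ τ = 1) ∧
    ∀ σ, Frobenius v σ⁻¹ → ∃ h : GL (Fin n) (PadicAlgCl ℓ),
      (ρ σ : Matrix (Fin n) (Fin n) (PadicAlgCl ℓ)) = (h : Matrix (Fin n) (Fin n) (PadicAlgCl ℓ)) *
        Matrix.diagonal (fun i => ι.symm (α v i)) *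
          ((h⁻¹ : GL (Fin n) (PadicAlgCl ℓ)) : Matrix (Fin n) (Fin n) (PadicAlgCl ℓ))

end defs

theorem result (F : Type) [Field F] [NumberField F] (n : ℕ) (hn : 0 < n)
    (S : Set (HeightOneSpectrum (𝓞 F))) (hS : S.Finite) (α : HeightOneSpectrum (𝓞 F) → Fin n → ℂ)
    (hfin : UpperDensityGt {v | v ∉ S ∧ RootsOfUnity (α v)} 0 ∨
      ∃ T : Finset ℂ, UpperDensityGt {v | v ∉ S ∧ ∑ i, α v i ∈ T} (1 - 1 / (n : ℝ) ^ 2))
    (c : ℝ) (hc : c < 2)
    (hRS : ∃ᶠ X : ℕ in atTop,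
      ∑ᶠ v ∈ {v : HeightOneSpectrum (𝓞 F) | Ideal.absNorm v.asIdeal ≤ X ∧ v ∉ S}, ‖∑ i, α v i‖ ^ 2 ≤
        c * ({v : HeightOneSpectrum (𝓞 F) | Ideal.absNorm v.asIdeal ≤ X}.ncard : ℝ))
    (ℓ : ℕ) [Fact ℓ.Prime] (ι : PadicAlgCl ℓ ≃+* ℂ)
    (ρ : Gal(AlgebraicClosure F/F) →* GL (Fin n) (PadicAlgCl ℓ)) (hρ : Attached S α ι ρ) :
    (Set.range ρ).Finite ∧ ∀ W : Submodule (PadicAlgCl ℓ) (Fin n → PadicAlgCl ℓ),
      (∀ g, ∀ w ∈ W, (ρ g : Matrix (Fin n) (Fin n) (PadicAlgCl ℓ)).mulVec w ∈ W) → W = ⊥ ∨ W = ⊤ := by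
  classical
  have hA : Pool.Agent.Y801.LG.Hyp n (fun v => Matrix.diagonal (α v)) S := by
    rcases hfin with ⟨d, hd, hf⟩ | ⟨T, d, hd, hf⟩
    · obtain ⟨c', hc', hf'⟩ := Pool.Agent.Y802.rel_dens _ le_rfl hd hf
      refine Or.inl (Pool.Agent.Y802.notNull_mono ?_ ⟨c', hc', hf'⟩)
      rintro v ⟨hv, h1, h2⟩
      exact ⟨hv, Pool.Agent.Y801.LG.rootsNoSub_diag h1 h2⟩
    · have h0 : (0 : ℝ) ≤ 1 - 1 / (n : ℝ) ^ 2 := by
        have h1 : (1 : ℝ) ≤ n := by exact_mod_cast hn
        have h2 : 1 / (n : ℝ) ^ 2 ≤ 1 := by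
          rw [div_le_one (by positivity)]
          nlinarith
        linarith
      obtain ⟨c', hc', hf'⟩ := Pool.Agent.Y802.rel_dens _ h0 hd hf
      refine Or.inr ⟨T, c', hc', ?_⟩
      have e : (fun v : HeightOneSpectrum (𝓞 F) => v ∉ S ∧ (Matrix.diagonal (α v)).trace ∈ T) =
          fun v => v ∈ {v | v ∉ S ∧ ∑ i, α v i ∈ T} := by
        ext v
        rw [Matrix.trace_diagonal]
        exact Iff.rfl
      rw [e]
      exact hf'
  obtain ⟨U, hU⟩ := Pool.Agent.Y801.LG.corr_open hn S hS α hA ι ρ hρ.1 hρ.2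
  refine ⟨Pool.Agent.Y801.LG.finite_range ρ U hU, fun W hW => ?_⟩
  refine Pool.Agent.Y801.LG.irr_core S hS α c hc ?_ ι ρ
    (S ∪ {v : HeightOneSpectrum (𝓞 F) | (ℓ : 𝓞 F) ∈ v.asIdeal})
    (hS.union Pool.Agent.Y802.finite_above) Set.subset_union_left
    (fun v hv => hρ.2 v (fun h => hv (Or.inl h)) fun h => hv (Or.inr h)) U hU W hW
  refine hRS.mono fun X hX => ?_
  have e := Pool.Agent.Y801.LG.sum_eq S α X
  rw [e]
  exact hX

end Pool.Agent.Results.MP_fa5bba_nt.PositiveDensity
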