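import Pool.Agent.Y126.IR.Main

/-!
# Irreducibility for every `ℓ` of essentially self-dual representations, from isotropic relations and
# local types

Let `π` be an algebraic cuspidal automorphic representation of `GL_n` over `ℚ`, essentially
self-dual, `S p` the eigenvalues of its Satake parameter at `p` (Clozel's normalisation), and
`ρ : Gal(ℚbar/ℚ) → GL_n(ℚbar_ℓ)` a continuous representation attached to `π`, with `ρ` isomorphic to
a twist `μ` of its dual. We show that `ρ` is irreducible if for every `0 < k ≤ n / 2`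

* at some prime `p` the parameters have no isotropic relation of size `k`: there are no `k` members
  of `S p`, which form together with their dual members `s / a` a part of `S p`, whose product is a
  root of unity times a rational power of `p`; and
* at some prime `p` there is no self-dual part of `S p` of size `k` with such a product (for odd `k`
  it is sufficient that `a ^ 2 ≠ s` for the members of `S p`), or for some bad prime the restriction
  of `ρ` to the decomposition group has a type without partial sum `k`: the dimensions of its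
  indecomposable direct summands (Krull, Schmidt) have no partial sum equal to `k`.

The type of `ρ` at a prime `q ≠ ℓ` is the one of `π_q` by local-global compatibility: if
`π_q` is the Langlands sum of the `Sp_{m_i}(σ_i)`, then the dimensions are sums of some of the numbers
`m_i dim σ_i`.  So the conditions are conditions on `π` at a finite number of primes, and they give
the irreducibility for every `ℓ` (for which these primes are different from `ℓ`).

It is not assumed that `ρ` is semisimple, and nothing is assumed on `ρ` at `ℓ`, at the infinite place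
(no regularity) or on the absolute values of the parameters (Ramanujan conjecture).

For semisimple `ρ` without self-duality the two kinds of conditions can be mixed too: for every
`0 < k ≤ n / 2` a prime `p` without relation of size `k` or a type without partial sum `k`.

Proof. The determinant of a stable subspace is, up to finite order, a rational power of the cyclotomic
character (six exponentials theorem, library `Pool.Agent.Y115`). A minimal stable subspace `X` is
isotropic or has the complement `X^⊥`. In the first case the eigenvalues of a Frobenius element on `X`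
are an isotropic relation. In the second case they are a self-dual relation and the dimension of `X`
is a partial sum for all types, by the theorem of Krull and Schmidt.
-/

set_option autoImplicit false

namespace Pool.Agent.Results.MP_fa5bba_nt.SelfDualLocalTypes

open NumberField Polynomial Matrix

/-- `Q` is a prime ideal above the prime number `p` of the ring of all algebraic integers. -/
def PrimeOver (p : ℕ) (Q : Ideal (𝓞 (AlgebraicClosure ℚ))) : Prop :=
  Q.IsPrime ∧ (p : 𝓞 (AlgebraicClosure ℚ)) ∈ Q

/-- `g` is in the inertia group at `Q`. -/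
def IsInertia (Q : Ideal (𝓞 (AlgebraicClosure ℚ))) (g : Gal(AlgebraicClosure ℚ/ℚ)) : Prop :=
  ∀ x : 𝓞 (AlgebraicClosure ℚ), g • x - x ∈ Q

/-- `g` is an (arithmetic) Frobenius element at the prime ideal `Q` above `p`. -/
def IsFrobenius (p : ℕ) (Q : Ideal (𝓞 (AlgebraicClosure ℚ))) (g : Gal(AlgebraicClosure ℚ/ℚ)) :
    Prop := ∀ x : 𝓞 (AlgebraicClosure ℚ), g • x - x ^ p ∈ Q

/-- `z` is a root of unity times a rational power of `p`. -/
def IsPower (p : ℕ) (z : ℂ) : Prop := ∃ (N : ℕ) (a : ℤ), 0 < N ∧ z ^ N = (p : ℂ) ^ a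

/-- There is a relation of size `k` between the members of `A₀`: the product of `k` of them (with
multiplicities) is a root of unity times a rational power of `p`. -/
def Relation (A₀ : Multiset ℂ) (p k : ℕ) : Prop :=
  ∃ A : Multiset ℂ, A ≤ A₀ ∧ Multiset.card A = k ∧ IsPower p A.prod

/-- There is an isotropic relation of size `k`: a multiset `A` with `k` members which is together
with the numbers `s / a`, `a` in `A`, a part of `A₀`, and whose product is a root of unity times a
rational power of `p`. -/
def IsotropicRelation (A₀ : Multiset ℂ) (s : ℂ) (p k : ℕ) : Prop :=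
  ∃ A : Multiset ℂ, A + A.map (fun a => s / a) ≤ A₀ ∧ Multiset.card A = k ∧ IsPower p A.prod

/-- There is a self-dual relation of size `k`: a part `A` of `A₀` with `k` members which is stable
under `a ↦ s / a` (with multiplicities), and whose product is a root of unity times a rational power
of `p`. -/
def SelfDualRelation (A₀ : Multiset ℂ) (s : ℂ) (p k : ℕ) : Prop :=
  ∃ A : Multiset ℂ, A ≤ A₀ ∧ A.map (fun a => s / a) = A ∧ Multiset.card A = k ∧ IsPower p A.prod

variable {ℓ : ℕ} [Fact ℓ.Prime] {n : ℕ}

/-- The matrix of `g`. -/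
noncomputable def mat (ρ : Gal(AlgebraicClosure ℚ/ℚ) →* GL (Fin n) (PadicAlgCl ℓ))
    (g : Gal(AlgebraicClosure ℚ/ℚ)) : Matrix (Fin n) (Fin n) (PadicAlgCl ℓ) :=
  (ρ g : GL (Fin n) (PadicAlgCl ℓ))

/-- The representation `ρ` is unramified at `p`, and the eigenvalues (with multiplicities) of every
geometric Frobenius element at `p` correspond under `ι` to the complex numbers in `S`. -/
structure AttachedAt (ρ : Gal(AlgebraicClosure ℚ/ℚ) →* GL (Fin n) (PadicAlgCl ℓ))
    (ι : PadicAlgCl ℓ →+* ℂ) (p : ℕ) (S : Multiset ℂ) : Prop where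
  unramified : ∀ Q, PrimeOver p Q → ∀ g, IsInertia Q g → ρ g = 1
  frobenius : ∀ Q, PrimeOver p Q → ∀ g, IsFrobenius p Q g → ((mat ρ g⁻¹).charpoly.map ι).roots = S

/-- `U` is stable under the elements of `H`. -/
def StableUnder (ρ : Gal(AlgebraicClosure ℚ/ℚ) →* GL (Fin n) (PadicAlgCl ℓ))
    (H : Set Gal(AlgebraicClosure ℚ/ℚ)) (U : Submodule (PadicAlgCl ℓ) (Fin n → PadicAlgCl ℓ)) : Prop :=
  ∀ g ∈ H, ∀ x ∈ U, mat ρ g *ᵥ x ∈ U

/-- `ρ` is irreducible. -/
def Irreducible (ρ : Gal(AlgebraicClosure ℚ/ℚ) →* GL (Fin n) (PadicAlgCl ℓ)) : Prop :=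
  0 < n ∧ ∀ U, StableUnder ρ Set.univ U → U = ⊥ ∨ U = ⊤

/-- `ρ` is semisimple. -/
def Semisimple (ρ : Gal(AlgebraicClosure ℚ/ℚ) →* GL (Fin n) (PadicAlgCl ℓ)) : Prop :=
  ∀ U, StableUnder ρ Set.univ U → ∃ U', StableUnder ρ Set.univ U' ∧ IsCompl U U'

/-- The restriction of `ρ` to `H` (in the application a decomposition group, or a subgroup of it) is
the direct sum of indecomposable stable subspaces of dimensions `d 0, d 1, …`. -/
def HasType (ρ : Gal(AlgebraicClosure ℚ/ℚ) →* GL (Fin n) (PadicAlgCl ℓ))
    (H : Set Gal(AlgebraicClosure ℚ/ℚ)) {r : ℕ} (d : Fin r → ℕ) : Prop :=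
  ∃ U : Fin r → Submodule (PadicAlgCl ℓ) (Fin n → PadicAlgCl ℓ),
    (∀ v, ∃! u : Fin r → Fin n → PadicAlgCl ℓ, (∀ i, u i ∈ U i) ∧ ∑ i, u i = v) ∧
    ∀ i, Module.finrank (PadicAlgCl ℓ) (U i) = d i ∧ StableUnder ρ H (U i) ∧
      ∀ A B, StableUnder ρ H A → StableUnder ρ H B → A ⊓ B = ⊥ → A ⊔ B = U i → A = ⊥ ∨ B = ⊥

/-- For some `H` the restriction of `ρ` to `H` has a type without partial sum `k`. -/
def NoPartialSum (ρ : Gal(AlgebraicClosure ℚ/ℚ) →* GL (Fin n) (PadicAlgCl ℓ)) (k : ℕ) : Prop :=
  ∃ (H : Set Gal(AlgebraicClosure ℚ/ℚ)) (r : ℕ) (d : Fin r → ℕ), HasType ρ H d ∧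
    ∀ I : Finset (Fin r), ∑ i ∈ I, d i ≠ k

/-- `ρ` is isomorphic to its dual twisted by `μ`, and `ι` maps the value of `μ` at the geometric
Frobenius elements at `p` to `s p`, for the `p` in `T`. -/
def SelfDual (ρ : Gal(AlgebraicClosure ℚ/ℚ) →* GL (Fin n) (PadicAlgCl ℓ)) (ι : PadicAlgCl ℓ →+* ℂ)
    (T : Set ℕ) (s : ℕ → ℂ) : Prop :=
  ∃ (J : Matrix (Fin n) (Fin n) (PadicAlgCl ℓ)) (μ : Gal(AlgebraicClosure ℚ/ℚ) → PadicAlgCl ℓ),
    J.det ≠ 0 ∧ (∀ g, (mat ρ g)ᵀ * J * mat ρ g = μ g • J) ∧
    ∀ p ∈ T, ∀ Q, PrimeOver p Q → ∀ g, IsFrobenius p Q g → ι (μ g⁻¹) = s p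

/-- **Irreducibility from relations and local types.**

Let complex numbers `S p` be given for the primes `p` (in the application the eigenvalues of the
Satake parameters of an algebraic cuspidal automorphic representation `π` of `GL_n`), algebraic for
the `p` in a set `T` of at least three primes different from `ℓ`, and let `ρ` be continuous and
attached to `S` at the primes in `T`.

1. If `ρ` is isomorphic to a twist of its dual (with the numbers `s p`), and if for all
`0 < k ≤ n / 2` some `p ∈ T` has no isotropic relation of size `k` and, moreover, some `p ∈ T` has no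
self-dual relation of size `k` or some restriction of `ρ` has a type without partial sum `k`, then
`ρ` is irreducible.

2. If `ρ` is semisimple and if for all `0 < k ≤ n / 2` some `p ∈ T` has no relation of size `k` or
some restriction of `ρ` has a type without partial sum `k`, then `ρ` is irreducible. -/
theorem result (ℓ : ℕ) [Fact ℓ.Prime] {n : ℕ} (hn : 0 < n) (S : ℕ → Multiset ℂ) (T : Set ℕ)
    (hT3 : 3 ≤ T.encard) (hT : ∀ p ∈ T, p.Prime ∧ p ≠ ℓ)
    (halg : ∀ p ∈ T, ∀ a ∈ S p, IsAlgebraic ℚ a) (ι : PadicAlgCl ℓ →+* ℂ)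
    (ρ : Gal(AlgebraicClosure ℚ/ℚ) →* GL (Fin n) (PadicAlgCl ℓ)) (hρ : Continuous ρ)
    (hS : ∀ p ∈ T, AttachedAt ρ ι p (S p)) :
    (∀ s : ℕ → ℂ, SelfDual ρ ι T s →
      (∀ k, 0 < k → 2 * k ≤ n → (∃ p ∈ T, ¬ IsotropicRelation (S p) (s p) p k) ∧
        ((∃ p ∈ T, ¬ SelfDualRelation (S p) (s p) p k) ∨ NoPartialSum ρ k)) → Irreducible ρ) ∧
    (Semisimple ρ →
      (∀ k, 0 < k → 2 * k ≤ n → (∃ p ∈ T, ¬ Relation (S p) p k) ∨ NoPartialSum ρ k) →
        Irreducible ρ) := by
  refine ⟨fun s hsd hk => ⟨hn, fun U hU => ?_⟩, fun hss hk => ⟨hn, fun U hU => ?_⟩⟩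
  · obtain ⟨J, μ, hJ, hμ, hs⟩ := hsd
    exact Pool.Agent.Y126.IR.selfdual_case ρ hρ ι T hT3 hT S
      (fun p hp Q hQ hpQ g hg => (hS p hp).frobenius Q ⟨hQ, hpQ⟩ g hg) halg hn hJ hμ
      (fun p hp Q hQ hpQ g hg => hs p hp Q ⟨hQ, hpQ⟩ g hg) hk U
      (fun g x hx => hU g (Set.mem_univ g) x hx)
  · obtain ⟨U', hU', hc⟩ := hss U hU
    exact Pool.Agent.Y126.IR.semisimple_case ρ hρ ι T hT3 hT S
      (fun p hp Q hQ hpQ g hg => (hS p hp).frobenius Q ⟨hQ, hpQ⟩ g hg) halg hk U U'
      (fun g x hx => hU g (Set.mem_univ g) x hx) (fun g x hx => hU' g (Set.mem_univ g) x hx) hc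

end Pool.Agent.Results.MP_fa5bba_nt.SelfDualLocalTypes
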