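import Pool.Agent.Y115.ST2.Main
import Pool.Agent.Y474.SP.Fil
import Pool.Agent.Y76.SP.Two

/-!
# Irreducibility for every `ℓ` from one place of Steinberg type up to semisimplification

Let `π` be an algebraic cuspidal automorphic representation of `GL_n` over `ℚ` and
`ρ : Gal(ℚbar/ℚ) → GL_n(ℚbar_ℓ)` a continuous representation attached to `π`.  Suppose that at one
prime number `p₀ ≠ ℓ` the component of `π` is essentially square integrable, `Sp_m(σ₀)` with `σ₀`
supercuspidal, and that `π` and `ρ` are compatible at `p₀` up to semisimplification only, that is,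
without any information on the monodromy: the decomposition group acts with the composition factors
`σ₀, σ₀(1), …, σ₀(m - 1)`.  (For regular algebraic `π` this is a theorem of Varma for all `ℓ ≠ p₀`;
that the monodromy operator of `ρ` is not zero is not known.)  We show:

* every chain of subrepresentations of `ρ` has at most `(m + 1) / 2` steps; so `ρ` has at most
  `(m + 1) / 2` irreducible constituents (instead of `m`);
* `ρ` is irreducible if `m ≤ 2`;
* `ρ` is irreducible if it is semisimple and if the monodromy operator at `p₀` has rank at least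
  `n - 2 s`, where `s = n / m` is the dimension of `σ₀` (for `m = 3`: if it is not zero).

Nothing is assumed at the infinite place (no regularity), no self-duality, no polarization, no
purity (Ramanujan), and nothing at `ℓ`.  All that is used of the Satake parameters is that they are
algebraic at three primes, and the bound of Jacquet and Shalika at one of them: the quotient of two
parameters at `p` has absolute value less than `p`.  The bound cannot be relaxed to `≤ p`: the sum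
of the trivial and the cyclotomic character is of the type considered with `m = 2` at every prime.

Proof.  The determinants of the stable subspaces are continuous characters of `Gal(ℚbar/ℚ)` with
algebraic values at three Frobenius elements; by the `ℓ`-adic six exponentials theorem (proved in
the library `Pool.Agent.Y115`) they are, up to finite order, rational powers of the cyclotomic
character.  So the constituents have well-defined weights per dimension, which can be read off at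
any prime; the bound of Jacquet and Shalika shows that the weights per dimension of two constituents
differ by less than one (in units of the cyclotomic character).  At `p₀` the factors are divided
among the constituents, so at most one constituent is a twist of `σ₀` there; and if `ρ` is the sum
of two subrepresentations on which the monodromy operators have irreducible kernels, then the weights
per dimension differ by `m / 2`.
-/

set_option autoImplicit false

namespace Pool.Agent.Results.MP_fa5bba_nt.SteinbergTypePlace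

open NumberField Polynomial Matrix

/-- `Q` is a prime ideal above the prime number `p` of the ring of all algebraic integers. -/
def PrimeOver (p : ℕ) (Q : Ideal (𝓞 (AlgebraicClosure ℚ))) : Prop :=
  Q.IsPrime ∧ (p : 𝓞 (AlgebraicClosure ℚ)) ∈ Q

/-- `g` is in the inertia group at `Q`. -/
def IsInertia (Q : Ideal (𝓞 (AlgebraicClosure ℚ))) (g : Gal(AlgebraicClosure ℚ/ℚ)) : Prop :=
  ∀ x : 𝓞 (AlgebraicClosure ℚ), g • x - x ∈ Q

/-- `g` is an (arithmetic) Frobenius element at the prime ideal `Q` above `p`. -/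
def IsFrobenius (p : ℕ) (Q : Ideal (𝓞 (AlgebraicClosure ℚ))) (g : Gal(AlgebraicClosure ℚ/ℚ)) :
    Prop := ∀ x : 𝓞 (AlgebraicClosure ℚ), g • x - x ^ p ∈ Q

variable {ℓ : ℕ} [Fact ℓ.Prime] {n : ℕ}

/-- The matrix of `g`. -/
noncomputable def mat (ρ : Gal(AlgebraicClosure ℚ/ℚ) →* GL (Fin n) (PadicAlgCl ℓ))
    (g : Gal(AlgebraicClosure ℚ/ℚ)) : Matrix (Fin n) (Fin n) (PadicAlgCl ℓ) :=
  (ρ g : GL (Fin n) (PadicAlgCl ℓ))

/-- The representation `ρ` is unramified at `p`, and the eigenvalues (with multiplicities) of every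
geometric Frobenius element at `p` correspond under `ι` to the complex numbers in `S`. -/
structure AttachedAt (ρ : Gal(AlgebraicClosure ℚ/ℚ) →* GL (Fin n) (PadicAlgCl ℓ))
    (ι : PadicAlgCl ℓ →+* ℂ) (p : ℕ) (S : Multiset ℂ) : Prop where
  unramified : ∀ Q, PrimeOver p Q → ∀ g, IsInertia Q g → ρ g = 1
  frobenius : ∀ Q, PrimeOver p Q → ∀ g, IsFrobenius p Q g → ((mat ρ g⁻¹).charpoly.map ι).roots = S

/-- `U` is a subrepresentation of `ρ`. -/
def Stable (ρ : Gal(AlgebraicClosure ℚ/ℚ) →* GL (Fin n) (PadicAlgCl ℓ))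
    (U : Submodule (PadicAlgCl ℓ) (Fin n → PadicAlgCl ℓ)) : Prop := ∀ g, ∀ x ∈ U, mat ρ g *ᵥ x ∈ U

/-- `ρ` is irreducible. -/
def Irreducible (ρ : Gal(AlgebraicClosure ℚ/ℚ) →* GL (Fin n) (PadicAlgCl ℓ)) : Prop :=
  0 < n ∧ ∀ U, Stable ρ U → U = ⊥ ∨ U = ⊤

/-- `ρ` is semisimple. -/
def Semisimple (ρ : Gal(AlgebraicClosure ℚ/ℚ) →* GL (Fin n) (PadicAlgCl ℓ)) : Prop :=
  ∀ U, Stable ρ U → ∃ U', Stable ρ U' ∧ IsCompl U U'

/-- The subquotient `B / A` of `ρ` restricted to the decomposition group at `Q` is the twist of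
`σ₀` by the power `χ ^ k` of the cyclotomic character: a linear map `θ` induces an isomorphism of
`B / A` with the space of `σ₀`, such that the elements `g` of the inertia group act by `σ₀ g`, and
the Frobenius element `σ` acts by `p ^ k σ₀ σ`. -/
def IsTwist (ρ : Gal(AlgebraicClosure ℚ/ℚ) →* GL (Fin n) (PadicAlgCl ℓ)) (p : ℕ)
    (Q : Ideal (𝓞 (AlgebraicClosure ℚ))) (σ : Gal(AlgebraicClosure ℚ/ℚ)) {s : ℕ}
    (σ₀ : Gal(AlgebraicClosure ℚ/ℚ) → Matrix (Fin s) (Fin s) (PadicAlgCl ℓ)) (k : ℕ)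
    (A B : Submodule (PadicAlgCl ℓ) (Fin n → PadicAlgCl ℓ)) : Prop :=
  A ≤ B ∧ ∃ θ : (Fin n → PadicAlgCl ℓ) →ₗ[PadicAlgCl ℓ] (Fin s → PadicAlgCl ℓ),
    B.map θ = ⊤ ∧ (∀ x ∈ B, θ x = 0 ↔ x ∈ A) ∧
    (∀ g, IsInertia Q g → ∀ x ∈ B, mat ρ g *ᵥ x ∈ B ∧ θ (mat ρ g *ᵥ x) = σ₀ g *ᵥ θ x) ∧
    ∀ x ∈ B, mat ρ σ *ᵥ x ∈ B ∧ θ (mat ρ σ *ᵥ x) = (p : PadicAlgCl ℓ) ^ k • (σ₀ σ *ᵥ θ x)

/-- `ρ` is at `Q` up to semisimplification of type `Sp_m(σ₀)`, with `σ₀` irreducible of dimension
`s > 0`: the representation of the decomposition group has a filtration with the graded pieces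
`σ₀, σ₀(1), …, σ₀(m - 1)`, each of them once, in any order.  Nothing is said on the monodromy. -/
def SteinbergTypeAt (ρ : Gal(AlgebraicClosure ℚ/ℚ) →* GL (Fin n) (PadicAlgCl ℓ)) (p : ℕ)
    (Q : Ideal (𝓞 (AlgebraicClosure ℚ))) (σ : Gal(AlgebraicClosure ℚ/ℚ)) (m s : ℕ) : Prop :=
  0 < s ∧ ∃ (σ₀ : Gal(AlgebraicClosure ℚ/ℚ) → Matrix (Fin s) (Fin s) (PadicAlgCl ℓ))
    (e : Equiv.Perm (Fin m)) (F : ℕ → Submodule (PadicAlgCl ℓ) (Fin n → PadicAlgCl ℓ)),
    (∀ U : Submodule (PadicAlgCl ℓ) (Fin s → PadicAlgCl ℓ),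
      (∀ g, g = σ ∨ IsInertia Q g → ∀ y ∈ U, σ₀ g *ᵥ y ∈ U) → U = ⊥ ∨ U = ⊤) ∧
    F 0 = ⊥ ∧ F m = ⊤ ∧ ∀ i : Fin m, IsTwist ρ p Q σ σ₀ (e i) (F i) (F (i + 1))

/-- The monodromy operator of `ρ` at `Q` has rank at least `n - 2 s`: some element `τ` of the
inertia group acts unipotently, `σ τ σ⁻¹` acts as `τ ^ p`, `g τ g⁻¹` acts as `τ` for `g` in the
inertia group, and `ρ τ - 1` has rank at least `n - 2 s`.  (`τ = 1` is allowed if `n ≤ 2 s`.) -/
def TwoBlocksAt (ρ : Gal(AlgebraicClosure ℚ/ℚ) →* GL (Fin n) (PadicAlgCl ℓ)) (p : ℕ)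
    (Q : Ideal (𝓞 (AlgebraicClosure ℚ))) (σ : Gal(AlgebraicClosure ℚ/ℚ)) (s : ℕ) : Prop :=
  ∃ τ, IsInertia Q τ ∧ IsNilpotent (mat ρ τ - 1) ∧ ρ (σ * τ * σ⁻¹) = ρ (τ ^ p) ∧
    (∀ g, IsInertia Q g → ρ (g * τ * g⁻¹) = ρ τ) ∧ n ≤ (mat ρ τ - 1).rank + 2 * s

/-- **Constituents and irreducibility from one place of Steinberg type up to semisimplification.**

Let complex numbers `S p` be given for the primes `p` (in the application the eigenvalues of the
Satake parameters `a_σ`, `σ = π_p ⊗ |det|^((1-n)/2)`, of an algebraic cuspidal automorphic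
representation `π` of `GL_n`), algebraic for the `p` in a set `T` of at least three primes, and such
that for one `p ∈ T` the quotients of the members of `S p` have absolute value less than `p`.  Let
`ℓ ∉ T`, and let `ρ` be continuous, attached to `S` at the primes in `T`, and at one prime
`p₀ ≠ ℓ` of type `Sp_m(σ₀)` up to semisimplification.  Then all chains of subrepresentations of `ρ`
have at most `(m + 1) / 2` steps, `ρ` is irreducible if `m ≤ 2`, and `ρ` is irreducible if it is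
semisimple with a monodromy operator of rank at least `n - 2 s` at `p₀`. -/
theorem result (ℓ : ℕ) [Fact ℓ.Prime] {n : ℕ} (hn : 0 < n) (S : ℕ → Multiset ℂ) (T : Set ℕ)
    (hT3 : 3 ≤ T.encard) (hT : ∀ p ∈ T, p.Prime ∧ p ≠ ℓ)
    (halg : ∀ p ∈ T, ∀ a ∈ S p, IsAlgebraic ℚ a)
    (hJS : ∃ p ∈ T, ∀ a ∈ S p, ∀ b ∈ S p, ‖a‖ < p * ‖b‖) (ι : PadicAlgCl ℓ →+* ℂ)
    (ρ : Gal(AlgebraicClosure ℚ/ℚ) →* GL (Fin n) (PadicAlgCl ℓ)) (hρ : Continuous ρ)
    (hS : ∀ p ∈ T, AttachedAt ρ ι p (S p)) (p₀ : ℕ) (hp₀ : p₀.Prime ∧ p₀ ≠ ℓ)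
    (Q : Ideal (𝓞 (AlgebraicClosure ℚ))) (hQ : PrimeOver p₀ Q) (σ : Gal(AlgebraicClosure ℚ/ℚ))
    (hσ : IsFrobenius p₀ Q σ) (m s : ℕ) (hst : SteinbergTypeAt ρ p₀ Q σ m s) :
    (∀ (c : ℕ) (V : ℕ → Submodule (PadicAlgCl ℓ) (Fin n → PadicAlgCl ℓ)),
      (∀ i ≤ c, Stable ρ (V i)) → (∀ i < c, V i < V (i + 1)) → 2 * c ≤ m + 1) ∧
    (m ≤ 2 → Irreducible ρ) ∧
    (Semisimple ρ → TwoBlocksAt ρ p₀ Q σ s → Irreducible ρ) := by
  classical
  obtain ⟨p₁, hp₁, hJS⟩ := hJS
  obtain ⟨hs, σ₀, e, F, hirr, hF0, hFm, hfac⟩ := hst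
  have hle := fun i : Fin m => (hfac i).1
  choose θ hθ1 hθ2 hθ3 hθ4 using fun i : Fin m => (hfac i).2
  have hfil : Pool.Agent.Y115.ST2.Fil
      (fun x : Pool.Agent.W569.FM.GF ℚ × PadicAlgCl ℓ => Pool.Agent.Y115.R.act ρ x.1)
      {x | x = (σ, (p₀ : PadicAlgCl ℓ)) ∨ ∃ g ∈ {g | IsInertia Q g}, x = (g, 1)} Prod.snd s m
      (fun x => Matrix.mulVecLin (σ₀ x.1)) (fun i => if h : i < m then (e ⟨i, h⟩ : ℕ) else 0) F
      (fun i => if h : i < m then θ ⟨i, h⟩ else 0) := by
    constructor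
    · exact hF0
    · exact hFm
    · intro i hi
      exact hle ⟨i, hi⟩
    · intro i hi
      rw [dif_pos hi]
      exact hθ1 ⟨i, hi⟩
    · intro i hi x hx
      rw [dif_pos hi]
      exact hθ2 ⟨i, hi⟩ x hx
    · rintro i hi _ (rfl | ⟨g, hg, rfl⟩) x hx
      · exact (hθ4 ⟨i, hi⟩ x hx).1
      · exact (hθ3 ⟨i, hi⟩ g hg x hx).1
    · rintro i hi _ (rfl | ⟨g, hg, rfl⟩) x hx
      · rw [dif_pos hi, dif_pos hi]
        exact (hθ4 ⟨i, hi⟩ x hx).2
      · rw [dif_pos hi, dif_pos hi]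
        dsimp only
        rw [one_pow, one_smul]
        exact (hθ3 ⟨i, hi⟩ g hg x hx).2
    · rintro _ (rfl | ⟨g, hg, rfl⟩)
      · exact Nat.cast_ne_zero.2 hp₀.1.ne_zero
      · exact one_ne_zero
    · intro U hU
      refine hirr U ?_
      rintro g (rfl | hg) y hy
      · exact hU (g, (p₀ : PadicAlgCl ℓ)) (Or.inl rfl) y hy
      · exact hU (g, 1) (Or.inr ⟨g, hg, rfl⟩) y hy
    · exact hs
  have he : ∀ i < m, (if h : i < m then (e ⟨i, h⟩ : ℕ) else 0) < m := by
    intro i hi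
    rw [dif_pos hi]
    exact (e ⟨i, hi⟩).2
  have hinj : ∀ i < m, ∀ j < m, (if h : i < m then (e ⟨i, h⟩ : ℕ) else 0) =
      (if h : j < m then (e ⟨j, h⟩ : ℕ) else 0) → i = j := by
    intro i hi j hj h
    rw [dif_pos hi, dif_pos hj] at h
    exact congrArg Fin.val (e.injective (Fin.ext h))
  have hgood : ∀ p ∈ T, ∀ Q : Ideal (𝓞 (AlgebraicClosure ℚ)), Q.IsPrime →
      (p : 𝓞 (AlgebraicClosure ℚ)) ∈ Q → ∀ g, IsFrobenius p Q g →
      ((mat ρ g⁻¹).charpoly.map ι).roots = S p :=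
    fun p hp Q' hQ' hpQ' g hg => (hS p hp).frobenius Q' ⟨hQ', hpQ'⟩ g hg
  have hchain : ∀ (c : ℕ) (V : ℕ → Submodule (PadicAlgCl ℓ) (Fin n → PadicAlgCl ℓ)),
      (∀ i ≤ c, Stable ρ (V i)) → (∀ i < c, V i < V (i + 1)) → 2 * c ≤ m + 1 := by
    intro c V hV hlt
    exact Pool.Agent.Y115.ST2.chain_bound Pool.Agent.Y474.SP.t ρ hρ ι T hT3 hT S hgood halg hp₁
      hJS hp₀ hQ.1 hQ.2 hσ (Or.inl rfl) hfil hinj c V (fun i hi g x hx => hV i hi g x hx) hlt
  refine ⟨hchain, fun hm => ⟨hn, fun U hU => ?_⟩, fun hss hN => ⟨hn, fun U hU => ?_⟩⟩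
  · by_contra hcon
    push Not at hcon
    have h1 := hchain 2 (fun i => if i = 0 then ⊥ else if i = 1 then U else ⊤) (by
      intro i hi g x hx
      rcases i with _ | _ | i
      · simp only [if_true, Submodule.mem_bot] at hx ⊢
        rw [hx, mulVec_zero]
      · exact hU g x hx
      · exact Submodule.mem_top) (by
      intro i hi
      rcases i with _ | _ | i
      · exact bot_lt_iff_ne_bot.2 hcon.1
      · exact lt_top_iff_ne_top.2 hcon.2
      · omega)
    omega
  · obtain ⟨τ, -, ⟨d, hd⟩, hστ, hI, hrk⟩ := hN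
    by_contra hcon
    push Not at hcon
    obtain ⟨U', hU', hc⟩ := hss U hU
    have hbot' : U' ≠ ⊥ := by
      rintro rfl
      exact hcon.2 (by simpa using hc.sup_eq_top)
    have h1 : Pool.Agent.Y115.R.act ρ τ - 1 = Matrix.toLinAlgEquiv' (mat ρ τ - 1) := by
      rw [map_sub, map_one]
      rfl
    have h2 : (Matrix.toLinAlgEquiv' (mat ρ τ - 1)) ^ d = 0 := by
      rw [← map_pow, hd, map_zero]
    have h3 : Pool.Agent.Y115.R.act ρ τ - 1 = Matrix.mulVecLin (mat ρ τ - 1) := h1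
    have h4 : Module.finrank (PadicAlgCl ℓ) (LinearMap.ker (Pool.Agent.Y115.R.act ρ τ - 1)) ≤
        2 * s := by
      have h5 := LinearMap.finrank_range_add_finrank_ker (Matrix.mulVecLin (mat ρ τ - 1))
      rw [Module.finrank_fin_fun] at h5
      have h6 : (mat ρ τ - 1).rank = Module.finrank (PadicAlgCl ℓ)
        (LinearMap.range (Matrix.mulVecLin (mat ρ τ - 1))) := rfl
      have h7 : Module.finrank (PadicAlgCl ℓ) (LinearMap.ker (Pool.Agent.Y115.R.act ρ τ - 1)) =
          Module.finrank (PadicAlgCl ℓ) (LinearMap.ker (Matrix.mulVecLin (mat ρ τ - 1))) :=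
        congrArg (fun X : Module.End (PadicAlgCl ℓ) (Fin n → PadicAlgCl ℓ) =>
          Module.finrank (PadicAlgCl ℓ) (LinearMap.ker X)) h3
      rw [h7]
      omega
    exact Pool.Agent.Y115.ST2.two_blocks Pool.Agent.Y474.SP.t
      (Pool.Agent.Y76.SP.t Pool.Agent.Y474.SP.t) ρ hρ ι T hT3 hT S hgood halg hp₁ hJS hp₀ hQ.1 hQ.2 hσ
      ⟨d, (congrArg (fun X => X ^ d) h1).trans h2⟩ hστ
      {g | IsInertia Q g} hI h4 hfil he hinj U U' hc (fun g x hx => hU g x hx)
      (fun g x hx => hU' g x hx) hcon.1 hbot'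

end Pool.Agent.Results.MP_fa5bba_nt.SteinbergTypePlace
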